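import Pool.Agent.Lib.MP_6b8fc7_nt.TW.Main

set_option autoImplicit false

/-!
Almost all `n = 1 mod 6` are `p + 2 q ^ 2` with `p`, `q` primes and `p + 2`, `q + 2` almost primes;
from the general theorem of `Lib/MP_0da313_nt/HC` (a hypothesis here).
-/

namespace Pool.Agent.Lib.MP_6b8fc7_nt.TW

open Finset Polynomial Filter
open ArithmeticFunction (cardFactors)
open Pool.Agent.Lib.MP_0da313_nt (Admissible lineRestrict val singV nroots eval_lineRestrict)

/-- the primes `q` with `n - 2 q ^ 2` prime and `q + 2`, `n - 2 q ^ 2 + 2` almost prime -/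
def Good (B n : ℕ) : Set ℕ :=
  {q : ℕ | q.Prime ∧ 2 * q ^ 2 ≤ n ∧ (n - 2 * q ^ 2).Prime ∧
    cardFactors (q + 2) ≤ B ∧ cardFactors (n - 2 * q ^ 2 + 2) ≤ B ∧
    ∀ p : ℕ, p.Prime → p ∣ (q + 2) * (n - 2 * q ^ 2 + 2) → n < p ^ B}

lemma Good_finite (B n : ℕ) : (Good B n).Finite := by
  apply (Set.finite_Iic n).subset
  intro q hq
  have h1 := hq.2.1
  have h2 := hq.1.one_lt
  rw [Set.mem_Iic]
  nlinarith

open Classical in
theorem main (hua : ∃ c0 : ℝ, 0 < c0 ∧ ∀ m D : ℕ, 1 ≤ m → 1 ≤ D → ∃ (B : ℕ) (c : ℝ), 0 < c ∧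
  ∀ f : Fin m → MvPolynomial (Fin 2) ℤ, Admissible f → (∀ k, (f k).totalDegree ≤ D) →
  ∀ (d : ℕ) (I J : Finset (Fin m)), 2 ≤ d → I.Nonempty →
  ∀ (a : Fin m → ℤ) (g : Fin m → ℤ[X]) (u v : Fin m → ℤ),
  (∀ k ∈ I, a k ≠ 0 ∧ (g k).natDegree = d ∧ f k = MvPolynomial.C (a k) *
    (MvPolynomial.X 0 + MvPolynomial.X 1) + aeval (MvPolynomial.X 0) (g k)) →
  (∀ k ∈ I, ∀ l ∈ I, k ≠ l → f k ≠ f l ∧ f k ≠ - f l) →
  (∀ k ∈ J, u k ≠ 0 ∧ f k = MvPolynomial.C (u k) * MvPolynomial.X 0 + MvPolynomial.C (v k)) →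
  (∀ k ∈ J, ∀ l ∈ J, k ≠ l → f k ≠ f l ∧ f k ≠ - f l) →
  ∀ A : ℕ, ∀ᶠ N : ℕ in atTop, (((Icc 1 N).filter (fun n : ℕ =>
    ¬ (c * ((n : ℝ) ^ (1 / (d : ℝ)) * singV f n) ≤
    (Set.ncard {x : ℕ | 0 < x ∧ x < n ∧ x ^ d ≤ n ∧
      (c0 * Real.log I.card ≤
          d * ((I.filter (fun k => (val (f k) x ((n : ℤ) - x)).natAbs.Prime)).card : ℝ) ∧
        1 ≤ (I.filter (fun k => (val (f k) x ((n : ℤ) - x)).natAbs.Prime)).card) ∧
      (J.Nonempty → c0 * Real.log J.card ≤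
          ((J.filter (fun k => (val (f k) x ((n : ℤ) - x)).natAbs.Prime)).card : ℝ) ∧
        1 ≤ (J.filter (fun k => (val (f k) x ((n : ℤ) - x)).natAbs.Prime)).card) ∧
      ∀ k, 1 < |val (f k) x ((n : ℤ) - x)| ∧
      (∀ p : ℕ, p.Prime → (p : ℤ) ∣ val (f k) x ((n : ℤ) - x) → n < p ^ B) ∧
      cardFactors (val (f k) x ((n : ℤ) - x)).natAbs ≤ B * D} : ℝ)))).card : ℝ) ≤
    N / (Real.log N) ^ A) :
  ∃ (B : ℕ) (c : ℝ), 0 < c ∧ ∀ A : ℕ,
    ∀ᶠ N : ℕ in atTop, (((Icc 1 N).filter (fun n : ℕ => n % 6 = 1 ∧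
      ¬ (c * (Real.sqrt n * sing n) ≤ (Set.ncard (Good B n) : ℝ)))).card : ℝ) ≤
      N / (Real.log N) ^ A := by
  obtain ⟨c0, hc0, H⟩ := hua
  obtain ⟨B, c, hc, H⟩ := H 4 2 (by norm_num) (by norm_num)
  refine ⟨2 * B + 4, c / 3, by positivity, ?_⟩
  set I : Finset (Fin 4) := {1} with hI
  set J : Finset (Fin 4) := {0} with hJ
  -- the key inclusion
  have key : ∀ n : ℕ, 1 ≤ n →
      (c * ((n : ℝ) ^ (1 / ((2 : ℕ) : ℝ)) * singV fam n) ≤
    (Set.ncard {x : ℕ | 0 < x ∧ x < n ∧ x ^ 2 ≤ n ∧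
      (c0 * Real.log I.card ≤
          (2 : ℕ) * ((I.filter (fun k => (val (fam k) x ((n : ℤ) - x)).natAbs.Prime)).card : ℝ) ∧
        1 ≤ (I.filter (fun k => (val (fam k) x ((n : ℤ) - x)).natAbs.Prime)).card) ∧
      (J.Nonempty → c0 * Real.log J.card ≤
          ((J.filter (fun k => (val (fam k) x ((n : ℤ) - x)).natAbs.Prime)).card : ℝ) ∧
        1 ≤ (J.filter (fun k => (val (fam k) x ((n : ℤ) - x)).natAbs.Prime)).card) ∧
      ∀ k, 1 < |val (fam k) x ((n : ℤ) - x)| ∧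
      (∀ p : ℕ, p.Prime → (p : ℤ) ∣ val (fam k) x ((n : ℤ) - x) → n < p ^ B) ∧
      cardFactors (val (fam k) x ((n : ℤ) - x)).natAbs ≤ B * 2} : ℝ)) →
      c / 3 * (Real.sqrt ((6 * n + 1 : ℕ) : ℝ) * sing (6 * n + 1)) ≤
        (Set.ncard (Good (2 * B + 4) (6 * n + 1)) : ℝ) := by
    intro n hn hle
    set m : ℕ := 6 * n + 1 with hm
    have hsub : {x : ℕ | 0 < x ∧ x < n ∧ x ^ 2 ≤ n ∧
      (c0 * Real.log I.card ≤
          (2 : ℕ) * ((I.filter (fun k => (val (fam k) x ((n : ℤ) - x)).natAbs.Prime)).card : ℝ) ∧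
        1 ≤ (I.filter (fun k => (val (fam k) x ((n : ℤ) - x)).natAbs.Prime)).card) ∧
      (J.Nonempty → c0 * Real.log J.card ≤
          ((J.filter (fun k => (val (fam k) x ((n : ℤ) - x)).natAbs.Prime)).card : ℝ) ∧
        1 ≤ (J.filter (fun k => (val (fam k) x ((n : ℤ) - x)).natAbs.Prime)).card) ∧
      ∀ k, 1 < |val (fam k) x ((n : ℤ) - x)| ∧
      (∀ p : ℕ, p.Prime → (p : ℤ) ∣ val (fam k) x ((n : ℤ) - x) → n < p ^ B) ∧
      cardFactors (val (fam k) x ((n : ℤ) - x)).natAbs ≤ B * 2} ⊆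
        Good (2 * B + 4) m := by
      rintro x ⟨hx0, hxn, hx2, ⟨_, hI2⟩, hJ1, hall⟩
      have hxm : 2 * x ^ 2 ≤ m := by omega
      have hval1 : (val (fam 1) x ((n : ℤ) - x)).natAbs = m - 2 * x ^ 2 := by
        rw [ev_one]
        have h2 : ((m - 2 * x ^ 2 : ℕ) : ℤ) = (m : ℤ) - 2 * (x : ℤ) ^ 2 := by
          rw [Nat.cast_sub hxm]
          push_cast
          ring
        rw [← h2, Int.natAbs_natCast]
      have hval2 : (val (fam 2) x ((n : ℤ) - x)).natAbs = x + 2 := by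
        rw [ev_two]
        have h2 : ((x + 2 : ℕ) : ℤ) = (x : ℤ) + 2 := by push_cast; ring
        rw [← h2, Int.natAbs_natCast]
      have hval3 : (val (fam 3) x ((n : ℤ) - x)).natAbs = m - 2 * x ^ 2 + 2 := by
        rw [ev_three]
        have h2 : ((m - 2 * x ^ 2 + 2 : ℕ) : ℤ) = (m : ℤ) + 2 - 2 * (x : ℤ) ^ 2 := by
          rw [Nat.cast_add, Nat.cast_sub hxm]
          push_cast
          ring
        rw [← h2, Int.natAbs_natCast]
      have hx : x.Prime := by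
        have h1 := (hJ1 ⟨0, by rw [hJ]; simp⟩).2
        rw [Nat.one_le_iff_ne_zero, Finset.card_ne_zero] at h1
        obtain ⟨k, hk⟩ := h1
        rw [Finset.mem_filter, hJ, Finset.mem_singleton] at hk
        obtain ⟨hk1, hk2⟩ := hk
        rw [hk1, ev_zero, Int.natAbs_natCast] at hk2
        exact hk2
      have hy : (m - 2 * x ^ 2).Prime := by
        rw [Nat.one_le_iff_ne_zero, Finset.card_ne_zero] at hI2
        obtain ⟨k, hk⟩ := hI2
        rw [Finset.mem_filter, hI, Finset.mem_singleton] at hk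
        obtain ⟨hk1, hk2⟩ := hk
        rw [hk1, hval1] at hk2
        exact hk2
      have hbig : ∀ p : ℕ, p.Prime → n < p ^ B → m < p ^ (2 * B + 4) := by
        intro p hp h6
        have h7 : m < 7 * p ^ B := by omega
        have h9 : 16 ≤ p ^ 4 := by
          calc 16 = 2 ^ 4 := by norm_num
            _ ≤ p ^ 4 := Nat.pow_le_pow_left hp.two_le 4
        have h8 : 7 * p ^ B ≤ p ^ (2 * B + 4) := by
          calc 7 * p ^ B ≤ p ^ 4 * p ^ B := Nat.mul_le_mul_right _ (by omega)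
            _ = p ^ (B + 4) := by rw [← pow_add]; congr 1; omega
            _ ≤ p ^ (2 * B + 4) := Nat.pow_le_pow_right hp.pos (by omega)
        omega
      refine ⟨hx, hxm, hy, ?_, ?_, fun p hp hpd => ?_⟩
      · have h3 := (hall 2).2.2
        rw [hval2] at h3
        omega
      · have h3 := (hall 3).2.2
        rw [hval3] at h3
        omega
      · rcases (hp.dvd_mul).1 hpd with h | h
        · refine hbig p hp ((hall 2).2.1 p hp ?_)
          rw [← Int.dvd_natAbs, hval2]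
          exact_mod_cast h
        · refine hbig p hp ((hall 3).2.1 p hp ?_)
          rw [← Int.dvd_natAbs, hval3]
          exact_mod_cast h
    have hn1 : (1 : ℝ) ≤ n := by exact_mod_cast hn
    have hsq : Real.sqrt ((m : ℕ) : ℝ) ≤ 3 * (n : ℝ) ^ (1 / ((2 : ℕ) : ℝ)) := by
      have h1 : (n : ℝ) ^ (1 / ((2 : ℕ) : ℝ)) = Real.sqrt n := by
        rw [Real.sqrt_eq_rpow]
        norm_num
      rw [h1]
      apply Real.sqrt_le_iff.2
      constructor
      · positivity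
      · rw [mul_pow, Real.sq_sqrt (by positivity)]
        have : (m : ℝ) ≤ 9 * n := by
          have : m ≤ 9 * n := by omega
          exact_mod_cast this
        linarith
    have hsing : sing m ≤ singV fam n := sing_le n
    have hsing0 : 0 ≤ sing m := sing_nonneg m
    calc c / 3 * (Real.sqrt ((m : ℕ) : ℝ) * sing m) ≤
          c / 3 * ((3 * (n : ℝ) ^ (1 / ((2 : ℕ) : ℝ))) * singV fam n) := by
          apply mul_le_mul_of_nonneg_left _ (by positivity)
          exact mul_le_mul hsq hsing hsing0 (by positivity)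
      _ = c * ((n : ℝ) ^ (1 / ((2 : ℕ) : ℝ)) * singV fam n) := by ring
      _ ≤ _ := hle
      _ ≤ _ := by
          exact_mod_cast Set.ncard_le_ncard hsub (Good_finite _ _)
  have hE : ∀ A : ℕ, ∀ᶠ N : ℕ in Filter.atTop,
      (((Finset.Icc 1 N).filter (fun n => ¬ (1 ≤ n ∧
        c / 3 * (Real.sqrt ((6 * n + 1 : ℕ) : ℝ) * sing (6 * n + 1)) ≤
        (Set.ncard (Good (2 * B + 4) (6 * n + 1)) : ℝ)))).card : ℝ) ≤
        N / (Real.log N) ^ A := by
    intro A
    have h1 := H fam adm deg_fam 2 I J le_rfl ⟨1, by rw [hI]; simp⟩ (fun _ => 6)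
      (fun _ => gq 1) (fun _ => 1) (fun _ => 0)
      (by
        intro k hk
        rw [hI, Finset.mem_singleton] at hk
        subst hk
        exact ⟨by norm_num, deg_gq 1, rfl⟩)
      (by
        intro k hk l hl hkl
        rw [hI, Finset.mem_singleton] at hk hl
        exact absurd (hk.trans hl.symm) hkl)
      (by
        intro k hk
        rw [hJ, Finset.mem_singleton] at hk
        subst hk
        refine ⟨by norm_num, ?_⟩
        show (MvPolynomial.X 0 : MvPolynomial (Fin 2) ℤ) = _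
        simp)
      (by
        intro k hk l hl hkl
        rw [hJ, Finset.mem_singleton] at hk hl
        exact absurd (hk.trans hl.symm) hkl) A
    filter_upwards [h1] with N hN
    refine le_trans ?_ hN
    apply Nat.cast_le.2
    apply Finset.card_le_card
    intro n hn
    rw [Finset.mem_filter] at hn
    refine Finset.mem_filter.2 ⟨hn.1, fun hle => hn.2 ⟨(Finset.mem_Icc.1 hn.1).1, ?_⟩⟩
    exact key n (Finset.mem_Icc.1 hn.1).1 hle
  obtain ⟨E, hEd⟩ : ∃ E : ℕ → ℕ → Prop, ∀ r n, E r n ↔ (r = 1 ∧ ¬ (1 ≤ n ∧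
        c / 3 * (Real.sqrt ((6 * n + 1 : ℕ) : ℝ) * sing (6 * n + 1)) ≤
        (Set.ncard (Good (2 * B + 4) (6 * n + 1)) : ℝ))) := ⟨_, fun r n => Iff.rfl⟩
  intro A
  have h3 := SR.count_transfer E
        (fun r hr A => by
          filter_upwards [hE A, Filter.eventually_ge_atTop 1] with N hN hN1
          rcases hr with rfl | rfl
          · refine le_trans (Nat.cast_le.2 (Finset.card_le_card ?_)) hN
            intro n hn
            rw [Finset.mem_filter] at hn ⊢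
            exact ⟨hn.1, ((hEd _ _).1 hn.2).2⟩
          · rw [Finset.filter_false_of_mem (fun n _ hcon => by
              have := ((hEd _ _).1 hcon).1
              omega)]
            rw [Finset.card_empty, Nat.cast_zero]
            have : 0 ≤ Real.log N := Real.log_nonneg (by exact_mod_cast hN1)
            positivity) A
  filter_upwards [h3] with N hN
  refine le_trans ?_ hN
  refine Nat.cast_le.2 (Finset.card_le_card ?_)
  intro n hn
  rw [Finset.mem_filter] at hn ⊢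
  refine ⟨hn.1, Or.inl hn.2.1, (hEd _ _).2 ⟨hn.2.1, fun hcon => hn.2.2 ?_⟩⟩
  have h5 : 6 * (n / 6) + 1 = n := by omega
  rw [h5] at hcon
  exact hcon.2

open Classical in
theorem comb
    (hsv : ∀ k : ℕ, ∃ c : ℝ, 0 < c ∧ ∀ n : ℕ, 2 ≤ n → ∀ w : ℕ → ℕ,
      (∀ p : ℕ, p.Prime → w p ≤ k ∧ w p < p) →
      c / (Real.log n) ^ k ≤ ∏ p ∈ (Icc 1 n).filter Nat.Prime, (1 - (w p : ℝ) / p))
    (hm : ∃ (B : ℕ) (c : ℝ), 0 < c ∧ ∀ A : ℕ,
    ∀ᶠ N : ℕ in atTop, (((Icc 1 N).filter (fun n : ℕ => n % 6 = 1 ∧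
      ¬ (c * (Real.sqrt n * sing n) ≤ (Set.ncard (Good B n) : ℝ)))).card : ℝ) ≤
      N / (Real.log N) ^ A) :
    ∃ (B : ℕ) (c : ℝ), 0 < c ∧
      (∀ n : ℕ, 2 ≤ n → n % 6 = 1 → c / (Real.log n) ^ 6 ≤ sing n) ∧
      ∀ A : ℕ, ∀ᶠ N : ℕ in atTop, (((Icc 1 N).filter (fun n : ℕ => n % 6 = 1 ∧
        ¬ (c * (Real.sqrt n * sing n) ≤ (Set.ncard (Good B n) : ℝ)))).card : ℝ) ≤
        N / (Real.log N) ^ A := by
  obtain ⟨B, c, hc, H⟩ := hm
  obtain ⟨c', hc', H'⟩ := sing_lb hsv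
  refine ⟨B, min c c', lt_min hc hc', fun n hn hr => ?_, fun A => ?_⟩
  · refine le_trans ?_ (H' n hn hr)
    apply div_le_div_of_nonneg_right (min_le_right _ _)
    have : 0 ≤ Real.log n := Real.log_nonneg (by exact_mod_cast (show 1 ≤ n by omega))
    positivity
  · filter_upwards [H A] with N hN
    refine le_trans (Nat.cast_le.2 (Finset.card_le_card ?_)) hN
    intro n hn
    rw [Finset.mem_filter] at hn ⊢
    refine ⟨hn.1, hn.2.1, fun hle => hn.2.2 (le_trans ?_ hle)⟩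
    apply mul_le_mul_of_nonneg_right (min_le_left _ _)
    exact mul_nonneg (Real.sqrt_nonneg _) (sing_nonneg n)

end Pool.Agent.Lib.MP_6b8fc7_nt.TW
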