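import Pool.Agent.Lib.MP_6b8fc7_nt.SR.Fam
import Pool.Agent.Lib.MP_6b8fc7_nt.SR.Transfer

set_option autoImplicit false

/-!
The family `x`, `6 (x + y) + 1 - 2 x ^ 2`, `x + 2`, `6 (x + y) + 3 - 2 x ^ 2`.
-/

namespace Pool.Agent.Lib.MP_6b8fc7_nt.TW

open Finset Polynomial Filter
open ArithmeticFunction (cardFactors)
open Pool.Agent.Lib.MP_0da313_nt (Admissible lineRestrict val singV nroots eval_lineRestrict
  card_roots_mod_le card_roots_mod_lt)

/-- the polynomials `c - 2 X^2` -/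
noncomputable def gq (r : ℕ) : ℤ[X] := C (r : ℤ) - C 2 * X ^ 2

/-- the quadratic form with the constant `r` -/
noncomputable def qf (r : ℕ) : MvPolynomial (Fin 2) ℤ :=
  MvPolynomial.C 6 * (MvPolynomial.X 0 + MvPolynomial.X 1) +
    Polynomial.aeval (MvPolynomial.X 0) (gq r)

/-- the family -/
noncomputable def fam : Fin 4 → MvPolynomial (Fin 2) ℤ :=
  ![MvPolynomial.X 0, qf 1, MvPolynomial.X 0 + MvPolynomial.C 2, qf 3]

lemma lr_qf (r n : ℕ) : lineRestrict (qf r) n = C ((6 * n + r : ℕ) : ℤ) - C 2 * X ^ 2 := by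
  unfold Pool.Agent.Lib.MP_0da313_nt.lineRestrict qf gq
  simp only [map_add, map_mul, map_sub, map_pow, MvPolynomial.aeval_X,
    Matrix.cons_val_zero, Matrix.cons_val_one, MvPolynomial.algHom_C, algebraMap_eq,
    Polynomial.aeval_C, Polynomial.aeval_X]
  simp
  ring

lemma lr_zero (n : ℕ) : lineRestrict (fam 0) n = X := by
  unfold Pool.Agent.Lib.MP_0da313_nt.lineRestrict fam
  simp

lemma lr_one (n : ℕ) : lineRestrict (fam 1) n = C ((6 * n + 1 : ℕ) : ℤ) - C 2 * X ^ 2 :=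
  lr_qf 1 n

lemma lr_two (n : ℕ) : lineRestrict (fam 2) n = X + C 2 := by
  unfold Pool.Agent.Lib.MP_0da313_nt.lineRestrict fam
  simp

lemma lr_three (n : ℕ) : lineRestrict (fam 3) n = C ((6 * n + 3 : ℕ) : ℤ) - C 2 * X ^ 2 :=
  lr_qf 3 n

lemma ev_zero (n : ℕ) (x : ℤ) : val (fam 0) x ((n : ℤ) - x) = x := by
  rw [← eval_lineRestrict, lr_zero, eval_X]

lemma ev_one (n : ℕ) (x : ℤ) :
    val (fam 1) x ((n : ℤ) - x) = ((6 * n + 1 : ℕ) : ℤ) - 2 * x ^ 2 := by
  rw [← eval_lineRestrict, lr_one]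
  simp only [eval_sub, eval_C, eval_mul, eval_pow, eval_X]

lemma ev_two (n : ℕ) (x : ℤ) : val (fam 2) x ((n : ℤ) - x) = x + 2 := by
  rw [← eval_lineRestrict, lr_two]
  simp only [eval_add, eval_C, eval_X]

lemma ev_three (n : ℕ) (x : ℤ) :
    val (fam 3) x ((n : ℤ) - x) = ((6 * n + 1 : ℕ) : ℤ) + 2 - 2 * x ^ 2 := by
  rw [← eval_lineRestrict, lr_three]
  simp only [eval_sub, eval_C, eval_mul, eval_pow, eval_X]
  push_cast
  ring

lemma prod_val (n : ℕ) (x : ℤ) :
    ∏ k, val (fam k) x ((n : ℤ) - x) =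
      x * (((6 * n + 1 : ℕ) : ℤ) - 2 * x ^ 2) * (x + 2) *
        (((6 * n + 1 : ℕ) : ℤ) + 2 - 2 * x ^ 2) := by
  rw [Fin.prod_univ_four, ev_zero, ev_one, ev_two, ev_three]

/-- the product polynomial -/
noncomputable def G (n : ℤ) : ℤ[X] :=
  X * (C n - C 2 * X ^ 2) * (X + C 2) * (C (n + 2) - C 2 * X ^ 2)

lemma ev_G (n x : ℤ) : (G n).eval x = x * (n - 2 * x ^ 2) * (x + 2) * (n + 2 - 2 * x ^ 2) := by
  unfold G
  simp only [eval_mul, eval_X, eval_sub, eval_C, eval_pow, eval_add]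

lemma deg_G (n : ℤ) : (G n).natDegree ≤ 6 := by
  unfold G
  compute_degree

lemma coeff_G (n : ℤ) : (G n).coeff 6 = 4 := by
  have h : G n = C 4 * X ^ 6 + (C 8 * X ^ 5 + C (-(2 * (2 * n + 2))) * X ^ 4 +
      C (-(4 * (2 * n + 2))) * X ^ 3 + C (n * (n + 2)) * X ^ 2 + C (2 * (n * (n + 2))) * X) := by
    unfold G
    simp only [map_mul, map_add, map_neg, map_ofNat]
    ring
  rw [h]
  have h2 : (C 8 * X ^ 5 + C (-(2 * (2 * n + 2))) * X ^ 4 +
      C (-(4 * (2 * n + 2))) * X ^ 3 + C (n * (n + 2)) * X ^ 2 +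
      C (2 * (n * (n + 2))) * X : ℤ[X]).natDegree ≤ 5 := by compute_degree
  rw [coeff_add, coeff_eq_zero_of_natDegree_lt (lt_of_le_of_lt h2 (by norm_num)), coeff_C_mul,
    coeff_X_pow]
  norm_num

/-- no fixed prime divisor -/
lemma local_ok (n : ℤ) (hn : n % 6 = 1) (p : ℕ) (hp : p.Prime) :
    ∃ x : ℤ, ¬ (p : ℤ) ∣ x * (n - 2 * x ^ 2) * (x + 2) * (n + 2 - 2 * x ^ 2) := by
  have hpZ : Prime (p : ℤ) := Nat.prime_iff_prime_int.1 hp
  have hp2 := hp.two_le
  by_cases h2 : p = 2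
  · subst h2
    refine ⟨1, fun hd => ?_⟩
    rcases hpZ.dvd_or_dvd hd with hd | hd
    · rcases hpZ.dvd_or_dvd hd with hd | hd
      · rcases hpZ.dvd_or_dvd hd with hd | hd
        · norm_num at hd
        · push_cast at hd; omega
      · norm_num at hd
    · push_cast at hd; omega
  by_cases h3 : p = 3
  · subst h3
    refine ⟨-1, fun hd => ?_⟩
    rcases hpZ.dvd_or_dvd hd with hd | hd
    · rcases hpZ.dvd_or_dvd hd with hd | hd
      · rcases hpZ.dvd_or_dvd hd with hd | hd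
        · norm_num at hd
        · push_cast at hd; omega
      · norm_num at hd
    · push_cast at hd; omega
  by_cases h5 : p = 5
  · subst h5
    by_cases hn5 : n % 5 = 0 ∨ n % 5 = 2
    · refine ⟨2, fun hd => ?_⟩
      rcases hpZ.dvd_or_dvd hd with hd | hd
      · rcases hpZ.dvd_or_dvd hd with hd | hd
        · rcases hpZ.dvd_or_dvd hd with hd | hd
          · norm_num at hd
          · push_cast at hd; omega
        · norm_num at hd
      · push_cast at hd; omega
    · refine ⟨1, fun hd => ?_⟩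
      rcases hpZ.dvd_or_dvd hd with hd | hd
      · rcases hpZ.dvd_or_dvd hd with hd | hd
        · rcases hpZ.dvd_or_dvd hd with hd | hd
          · norm_num at hd
          · push_cast at hd; omega
        · norm_num at hd
      · push_cast at hd; omega
  have hp7 : 7 ≤ p := by
    by_contra hcon
    have : p = 4 ∨ p = 6 := by omega
    rcases this with rfl | rfl
    · exact absurd hp (by decide)
    · exact absurd hp (by decide)
  have : Fact p.Prime := ⟨hp⟩
  by_contra hcon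
  push Not at hcon
  set F : (ZMod p)[X] := (G n).map (Int.castRingHom (ZMod p)) with hF
  have hF0 : F ≠ 0 := by
    intro h0
    have h1 := congrArg (fun q : (ZMod p)[X] => q.coeff 6) h0
    simp only [hF, coeff_map, coeff_G, coeff_zero] at h1
    have h2 : ((4 : ℕ) : ZMod p) = 0 := by
      push_cast
      simpa using h1
    rw [ZMod.natCast_eq_zero_iff] at h2
    have := Nat.le_of_dvd (by norm_num) h2
    omega
  have hdeg : F.natDegree ≤ 6 := natDegree_map_le.trans (deg_G n)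
  apply hF0
  apply Polynomial.eq_zero_of_natDegree_lt_card_of_eval_eq_zero (f := fun x : ZMod p => x)
  · intro a b hab
    exact hab
  · intro x
    obtain ⟨y, rfl⟩ : ∃ y : ℤ, (y : ZMod p) = x := ZMod.intCast_surjective x
    have h1 := hcon y
    rw [← ev_G, ← ZMod.intCast_zmod_eq_zero_iff_dvd] at h1
    rw [hF]
    have h2 : ((G n).map (Int.castRingHom (ZMod p))).eval ((y : ℤ) : ZMod p) =
        (((G n).eval y : ℤ) : ZMod p) := by
      simp
    rw [h2]
    exact h1
  · rw [ZMod.card]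
    omega

lemma adm : Admissible fam := by
  refine ⟨0, fun n _ => ⟨fun k => ?_, fun p hp hall => ?_⟩⟩
  · fin_cases k
    · show Irreducible (lineRestrict (fam 0) n)
      rw [lr_zero]
      exact irreducible_X
    · show Irreducible (lineRestrict (fam 1) n)
      rw [lr_one]
      exact SR.irr_quad _ (by omega)
    · show Irreducible (lineRestrict (fam 2) n)
      rw [lr_two]
      have : (X + C 2 : ℤ[X]) = X - C (-2) := by simp
      rw [this]
      exact irreducible_X_sub_C _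
    · show Irreducible (lineRestrict (fam 3) n)
      rw [lr_three]
      exact SR.irr_quad _ (by omega)
  · obtain ⟨x, hx⟩ := local_ok ((6 * n + 1 : ℕ) : ℤ) (by omega) p hp
    apply hx
    have h3 := hall x
    have h4 : ∏ k, (lineRestrict (fam k) n).eval x =
        x * (((6 * n + 1 : ℕ) : ℤ) - 2 * x ^ 2) * (x + 2) *
        (((6 * n + 1 : ℕ) : ℤ) + 2 - 2 * x ^ 2) := by
      rw [← prod_val]
      exact Finset.prod_congr rfl fun k _ => eval_lineRestrict _ _ _
    rwa [h4] at h3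

lemma deg_gq (r : ℕ) : (gq r).natDegree = 2 := by
  unfold gq
  compute_degree!

lemma deg_qf (r : ℕ) : (qf r).totalDegree ≤ 2 := by
  have hX : ∀ i : Fin 2, (MvPolynomial.X i : MvPolynomial (Fin 2) ℤ).totalDegree ≤ 1 := fun i => by
    rw [MvPolynomial.totalDegree_X]
  unfold qf gq
  simp only [map_sub, map_mul, map_pow, Polynomial.aeval_C, Polynomial.aeval_X]
  refine (MvPolynomial.totalDegree_add _ _).trans (max_le ?_ ?_)
  · refine (MvPolynomial.totalDegree_mul _ _).trans ?_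
    rw [MvPolynomial.totalDegree_C, zero_add]
    exact ((MvPolynomial.totalDegree_add _ _).trans (max_le (hX 0) (hX 1))).trans (by norm_num)
  · refine (MvPolynomial.totalDegree_sub _ _).trans (max_le ?_ ?_)
    · rw [MvPolynomial.algebraMap_eq, MvPolynomial.totalDegree_C]
      exact Nat.zero_le _
    · refine (MvPolynomial.totalDegree_mul _ _).trans ?_
      rw [MvPolynomial.algebraMap_eq, MvPolynomial.totalDegree_C, zero_add]
      refine (MvPolynomial.totalDegree_pow _ _).trans ?_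
      have := hX 0
      omega

lemma deg_fam (k : Fin 4) : (fam k).totalDegree ≤ 2 := by
  fin_cases k
  · show (MvPolynomial.X 0 : MvPolynomial (Fin 2) ℤ).totalDegree ≤ 2
    rw [MvPolynomial.totalDegree_X]
    norm_num
  · exact deg_qf 1
  · show (MvPolynomial.X 0 + MvPolynomial.C 2 : MvPolynomial (Fin 2) ℤ).totalDegree ≤ 2
    refine (MvPolynomial.totalDegree_add _ _).trans (max_le ?_ ?_)
    · rw [MvPolynomial.totalDegree_X]
      norm_num
    · rw [MvPolynomial.totalDegree_C]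
      norm_num
  · exact deg_qf 3

/-- the number of residues `t` mod `p` with `p ∣ t (n - 2 t^2) (t + 2) (n + 2 - 2 t^2)` -/
def om (n p : ℕ) : ℕ :=
  ((Finset.range p).filter (fun t : ℕ => (p : ℤ) ∣ (t : ℤ) * ((n : ℤ) - 2 * (t : ℤ) ^ 2) *
    ((t : ℤ) + 2) * ((n : ℤ) + 2 - 2 * (t : ℤ) ^ 2))).card

/-- the singular product -/
noncomputable def sing (n : ℕ) : ℝ :=
  ∏ p ∈ (Finset.Icc 1 n).filter Nat.Prime, (1 - (om n p : ℝ) / p)

lemma om_le (n p : ℕ) : om n p ≤ p := by
  unfold om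
  exact (Finset.card_filter_le _ _).trans (by rw [Finset.card_range])

lemma nroots_eq (n p : ℕ) : nroots fam n p = om (6 * n + 1) p := by
  unfold Pool.Agent.Lib.MP_0da313_nt.nroots om
  congr 1
  apply Finset.filter_congr
  intro t _
  rw [prod_val]

lemma sing_nonneg (n : ℕ) : 0 ≤ sing n := by
  unfold sing
  apply Finset.prod_nonneg
  intro p hp
  have hpp := (Finset.mem_filter.1 hp).2
  have h0 : (0 : ℝ) < p := by exact_mod_cast hpp.pos
  have h1 : (om n p : ℝ) ≤ p := by exact_mod_cast om_le n p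
  have h2 : (om n p : ℝ) / p ≤ 1 := (div_le_one h0).2 h1
  linarith

lemma sing_le (n : ℕ) : sing (6 * n + 1) ≤ singV fam n := by
  unfold sing Pool.Agent.Lib.MP_0da313_nt.singV
  have hsub : (Finset.Icc 1 n).filter Nat.Prime ⊆ (Finset.Icc 1 (6 * n + 1)).filter Nat.Prime := by
    intro p hp
    rw [Finset.mem_filter, Finset.mem_Icc] at hp ⊢
    exact ⟨⟨hp.1.1, by omega⟩, hp.2⟩
  have hfac : ∀ p : ℕ, p.Prime → 0 ≤ 1 - (om (6 * n + 1) p : ℝ) / p ∧
      1 - (om (6 * n + 1) p : ℝ) / p ≤ 1 := by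
    intro p hp
    have h0 : (0 : ℝ) < p := by exact_mod_cast hp.pos
    have h1 : (om (6 * n + 1) p : ℝ) ≤ p := by exact_mod_cast om_le _ p
    have h2 : (om (6 * n + 1) p : ℝ) / p ≤ 1 := (div_le_one h0).2 h1
    have h3 : 0 ≤ (om (6 * n + 1) p : ℝ) / p := by positivity
    constructor <;> linarith
  rw [← Finset.prod_sdiff hsub]
  have h1 : ∏ p ∈ (Finset.Icc 1 n).filter Nat.Prime, (1 - (nroots fam n p : ℝ) / p) =
      ∏ p ∈ (Finset.Icc 1 n).filter Nat.Prime, (1 - (om (6 * n + 1) p : ℝ) / p) :=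
    Finset.prod_congr rfl fun p _ => by rw [nroots_eq]
  rw [h1]
  apply mul_le_of_le_one_left
  · exact Finset.prod_nonneg fun p hp => (hfac p (Finset.mem_filter.1 hp).2).1
  · apply Finset.prod_le_one
    · intro p hp
      exact (hfac p (Finset.mem_filter.1 (Finset.mem_sdiff.1 hp).1).2).1
    · intro p hp
      exact (hfac p (Finset.mem_filter.1 (Finset.mem_sdiff.1 hp).1).2).2

lemma sing_lb (hsv : ∀ k : ℕ, ∃ c : ℝ, 0 < c ∧ ∀ n : ℕ, 2 ≤ n → ∀ w : ℕ → ℕ,
    (∀ p : ℕ, p.Prime → w p ≤ k ∧ w p < p) →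
    c / (Real.log n) ^ k ≤ ∏ p ∈ (Icc 1 n).filter Nat.Prime, (1 - (w p : ℝ) / p)) :
    ∃ c : ℝ, 0 < c ∧ ∀ n : ℕ, 2 ≤ n → n % 6 = 1 → c / (Real.log n) ^ 6 ≤ sing n := by
  obtain ⟨c, hc, H⟩ := hsv 6
  refine ⟨c, hc, fun n hn hr => H n hn (fun p => om n p) (fun p hp => ?_)⟩
  have hno : ¬ ∀ x : ℤ, (p : ℤ) ∣ (G n).eval x := by
    intro hall
    obtain ⟨x, hx⟩ := local_ok (n : ℤ) (by omega) p hp
    apply hx
    rw [← ev_G]
    exact hall x
  have he : om n p = ((range p).filter (fun r : ℕ => (p : ℤ) ∣ (G n).eval (r : ℤ))).card := by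
    unfold om
    congr 1
    apply Finset.filter_congr
    intro t _
    rw [ev_G]
  rw [he]
  exact ⟨card_roots_mod_le (G n) p _ hp (deg_G n) hno, card_roots_mod_lt (G n) p hp hno⟩

end Pool.Agent.Lib.MP_6b8fc7_nt.TW
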